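import Pool.Agent.TH745.MN.Dbl
import Pool.Agent.TH2.NU.Multi

/-! A calculus for the expected dimension: blocks, exact clusters and doubling. -/

set_option autoImplicit false

namespace Pool.Agent.TH745.MN

open Finset Pool.Agent.TH176.Nag Pool.Agent.TH603.Sur H932R3 Pool.Agent.TH641.UM Pool.Agent.TH2.NU

/-- the empty range, for multisets -/
def AboveM (M : Multiset ℕ) (d : ℕ) : Prop :=
  ∃ (K r : ℕ) (A : Fin r → Multiset ℕ), 2 ≤ K ∧ r < K ^ 2 ∧ ∑ i, A i ≤ M ∧
    (∀ i, d < 2 * K * (A i).sum) ∧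
    (d : ℝ) ^ 2 < ∑ i, min (((A i).sum : ℝ) ^ 2 / (A i).card) (((A i).sum : ℝ) * d / (2 * K))

/-- the independent range, for multisets -/
def BelowM (M : Multiset ℕ) (d : ℕ) : Prop :=
  ∃ (K r : ℕ) (A : Fin r → Multiset ℕ) (μ : Fin r → ℕ) (t b : Fin r → ℝ) (e : ℕ),
    2 ≤ K ∧ r < K ^ 2 ∧ ∑ i, A i = M ∧ e ≤ d ∧ (e + 3) % (2 * K) ≤ K ∧
    (∀ i, ∀ a ∈ A i, a ≤ μ i) ∧
    (∀ i, 1 < t i ∧ ((A i).sum : ℝ) + t i ≤ b i ∧
      ((A i).count (μ i) : ℝ) + t i * μ i ≤ b i ∧
      2 * K * b i < t i * ((e : ℝ) + 3 - 1 / (2 * K))) ∧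
    ∑ i, max (((e : ℝ) + 3 - 1 / (2 * K)) / (2 * K)) (b i) ^ 2 / t i <
        ((e : ℝ) + 3 - 1 / (2 * K)) ^ 2

theorem sum_fam (M : Multiset ℕ) : ∑ j : Fin M.toList.length, M.toList.get j = M.sum := by
  rw [← ms_sum_val, ms_toList]

theorem ms_sigma {r : ℕ} (A : Fin r → Multiset ℕ) :
    ms (fun x : (Σ i, Fin (A i).toList.length) => (A x.1).toList.get x.2) = ∑ i, A i := by
  unfold ms
  rw [Fintype.sum_sigma]
  refine sum_congr rfl fun i _ => ?_
  exact ms_toList (A i)

theorem AboveM.emp {M : Multiset ℕ} {d : ℕ} (h : AboveM M d) : EmpM M (TZ d) := by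
  obtain ⟨K, r, A, hK, hr, hA, h1, h2⟩ := h
  have e : ∀ i, ((∑ j : Fin (A i).toList.length, (A i).toList.get j : ℕ) : ℝ) = (A i).sum := by
    intro i
    rw [sum_fam]
  have key := Emp_blocks (K := K) (d := d) (r := r) (by omega) (by omega)
    (κ := fun i => Fin (A i).toList.length) (v := fun x => (A x.1).toList.get x.2)
    (by
      intro i
      show d < 2 * K * ∑ j : Fin (A i).toList.length, (A i).toList.get j
      rw [sum_fam]
      exact h1 i)
    (by
      refine lt_of_lt_of_eq h2 (sum_congr rfl fun i _ => ?_)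
      show _ = min (((∑ j : Fin (A i).toList.length, (A i).toList.get j : ℕ) : ℝ) ^ 2 /
        Fintype.card (Fin (A i).toList.length))
        (((∑ j : Fin (A i).toList.length, (A i).toList.get j : ℕ) : ℝ) * d / (2 * K))
      rw [e, Fintype.card_fin, Multiset.length_toList])
  have h3 : EmpM (∑ i, A i) (TZ d) := (EmpM_iff (ms_sigma A) _).2 key
  exact h3.mono hA

theorem BelowM.sur {M : Multiset ℕ} {d : ℕ} (h : BelowM M d) : SurM M (TZ d) := by
  classical
  obtain ⟨K, r, A, μ, t, b, e', hK, hr, hA, hed, hmod, hμ, h1, h2⟩ := h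
  obtain ⟨e, he⟩ : ∃ e, r + e + 1 = K ^ 2 := ⟨K ^ 2 - r - 1, by omega⟩
  obtain ⟨A', hA'⟩ : ∃ A' : Fin (r + e) → Multiset ℕ, A' = Fin.append A (fun _ => 0) :=
    ⟨_, rfl⟩
  obtain ⟨t', ht'⟩ : ∃ t' : Fin (r + e) → ℝ, t' = Fin.append t (fun _ => 0) := ⟨_, rfl⟩
  obtain ⟨b', hb'⟩ : ∃ b' : Fin (r + e) → ℝ, b' = Fin.append b (fun _ => 0) := ⟨_, rfl⟩
  have a1 : ∀ i, A' (Fin.castAdd e i) = A i := fun i => by rw [hA', Fin.append_left]
  have a2 : ∀ i, A' (Fin.natAdd r i) = 0 := fun i => by rw [hA', Fin.append_right]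
  have b1 : ∀ i, t' (Fin.castAdd e i) = t i := fun i => by rw [ht', Fin.append_left]
  have b2 : ∀ i, b' (Fin.castAdd e i) = b i := fun i => by rw [hb', Fin.append_left]
  have hAM : ∑ i, A' i = M := by
    rw [Fin.sum_univ_add]
    simp only [a1, a2, sum_const_zero, add_zero]
    exact hA
  have hcard : ∀ B : Multiset ℕ, Fintype.card (Fin B.toList.length) = B.card := fun B => by
    rw [Fintype.card_fin, Multiset.length_toList]
  have hrow : ∀ i, ∀ k : ℕ, (∃ j : Fin (A' i).toList.length, k < (A' i).toList.get j) →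
      ((∑ j : Fin (A' i).toList.length, ((A' i).toList.get j - k) : ℕ) : ℝ) + t' i * (k + 1) ≤
        b' i := by
    intro i
    refine Fin.addCases (fun i => ?_) (fun i => ?_) i
    · rw [a1, b1, b2]
      obtain ⟨g1, g2, g3, g4⟩ := h1 i
      intro k hk
      refine rows_le (fun j : Fin (A i).toList.length => (A i).toList.get j) (M := μ i)
        (fun j => hμ i _ ?_) ?_ ?_ k hk
      · rw [← Multiset.mem_toList]
        exact List.get_mem _ _
      · rw [sum_fam]
        exact g2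
      · have h3 := count_ms (fun j : Fin (A i).toList.length => (A i).toList.get j) (μ i)
        rw [ms_toList, Fintype.card_subtype] at h3
        rw [← h3]
        exact g3
    · rw [a2]
      rintro k ⟨j, _⟩
      have := j.2
      simp at this
  have key := Sur_blocks (K := K) (d := d) (e := e') (r := r + e) hK he hed hmod
    (κ := fun i => Fin (A' i).toList.length) (w := fun x => (A' x.1).toList.get x.2)
    (n := t') (b := b') hrow
    (by
      intro i
      rw [hcard]
      refine Fin.addCases (fun i => ?_) (fun i => ?_) i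
      · intro _
        rw [b1]
        exact (h1 i).1
      · intro hi
        rw [a2] at hi
        simp at hi)
    (by
      intro i
      rw [hcard]
      refine Fin.addCases (fun i => ?_) (fun i => ?_) i
      · intro _
        rw [b1, b2]
        have g1 := (h1 i).2.1
        have g2 : (0 : ℝ) ≤ ((A i).sum : ℝ) := Nat.cast_nonneg _
        linarith
      · intro hi
        rw [a2] at hi
        simp at hi)
    (by
      intro i
      rw [hcard]
      refine Fin.addCases (fun i => ?_) (fun i => ?_) i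
      · intro _
        rw [b1, b2]
        exact (h1 i).2.2.2
      · intro hi
        rw [a2] at hi
        simp at hi)
    (by
      simp only [hcard]
      rw [Fin.sum_univ_add]
      simp only [a1, a2, b1, b2, Multiset.card_zero, lt_irrefl, if_false, sum_const_zero, add_zero]
      refine lt_of_le_of_lt (sum_le_sum fun i _ => ?_) h2
      split_ifs
      · exact le_rfl
      · exact div_nonneg (sq_nonneg _) (by linarith [(h1 i).1]))
  exact (SurM_iff ((ms_sigma A').trans hAM) _).2 key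

/-- the members of an exact cluster -/
theorem r4_eq {b : ℕ} (hb : 1 ≤ b) : r4 b = {(2 * b - 1) / 4} + {2 * b / 4} + {(2 * b + 1) / 4} +
    {(2 * b + 2) / 4} := by
  unfold r4 ms
  rw [Fintype.sum_prod_type]
  simp only [Fin.sum_univ_two]
  unfold rv
  simp only [Fin.val_zero, Fin.val_one]
  have e0 : 2 * b - 1 + (2 * 0 + 0) = 2 * b - 1 := by omega
  have e1 : 2 * b - 1 + (2 * 0 + 1) = 2 * b := by omega
  have e2 : 2 * b - 1 + (2 * 1 + 0) = 2 * b + 1 := by omega
  have e3 : 2 * b - 1 + (2 * 1 + 1) = 2 * b + 2 := by omega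
  rw [e0, e1, e2, e3]
  abel

/-- the members of a doubling cluster -/
theorem q4_eq (b : ℕ) : q4 b = {b / 2} + {b / 2} + {(b + 1) / 2} + {(b + 1) / 2} := by
  unfold q4 ms
  rw [Fintype.sum_prod_type]
  simp only [Fin.sum_univ_two]
  unfold qv
  simp only [Fin.val_zero, Fin.val_one, add_zero]
  abel

/-- the relation: `true` for independence, `false` for emptiness -/
inductive Dec : Bool → Multiset ℕ → ℕ → Prop
  | blkE {M : Multiset ℕ} {d : ℕ} (h : AboveM M d) : Dec false M d
  | blkI {M : Multiset ℕ} {d : ℕ} (h : BelowM M d) : Dec true M d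
  | four {s : Bool} {M : Multiset ℕ} {b d : ℕ} (hb : 1 ≤ b) (h : Dec s (M + {b}) d) :
      Dec s (M + ({(2 * b - 1) / 4} + {2 * b / 4} + {(2 * b + 1) / 4} + {(2 * b + 2) / 4})) d
  | dblE {M : Multiset ℕ} {a b d : ℕ} (ha : 0 < a) (h1 : Dec true (M + a • {b}) d)
      (h2 : Dec false (M + a • {b + 1}) d)
      (h : (d + 2).choose 2 ≤ ((M + a • ({b / 2} + {b / 2} + {(b + 1) / 2} + {(b + 1) / 2})).map
        fun x => (x + 1).choose 2).sum) :
      Dec false (M + a • ({b / 2} + {b / 2} + {(b + 1) / 2} + {(b + 1) / 2})) d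
  | dblI {M : Multiset ℕ} {a b d : ℕ} (ha : 0 < a) (h1 : Dec true (M + a • {b}) d)
      (h2 : Dec false (M + a • {b + 1}) d)
      (h : ((M + a • ({b / 2} + {b / 2} + {(b + 1) / 2} + {(b + 1) / 2})).map
        fun x => (x + 1).choose 2).sum ≤ (d + 2).choose 2) :
      Dec true (M + a • ({b / 2} + {b / 2} + {(b + 1) / 2} + {(b + 1) / 2})) d
  | monoE {M : Multiset ℕ} {b b' d d' : ℕ} (h : Dec false (M + {b}) d') (hb : b ≤ b')
      (hd : d ≤ d') : Dec false (M + {b'}) d
  | monoI {M : Multiset ℕ} {b b' d d' : ℕ} (h : Dec true (M + {b'}) d') (hb : b ≤ b')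
      (hd : d' ≤ d) : Dec true (M + {b}) d
  | zero {s : Bool} {M : Multiset ℕ} {d : ℕ} (h : Dec s (M + {0}) d) : Dec s M d
  | zero' {s : Bool} {M : Multiset ℕ} {d : ℕ} (h : Dec s M d) : Dec s (M + {0}) d

theorem TFp (d : ℕ) : ∀ u ∈ Pool.Agent.TH387.SH.TF d, 0 ≤ u.1 ∧ 0 ≤ u.2 := by
  intro u hu
  have h1 : u ∈ TZ d := by rw [← Pool.Agent.TH387.SH.coe_TF]; exact mem_coe.2 hu
  exact ⟨h1.1, h1.2.1⟩

theorem EmpM_zero {M : Multiset ℕ} {S : Set (ℤ × ℤ)} : EmpM (M + {0}) S ↔ EmpM M S := by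
  have e : ms (Sum.elim (fun i : Fin M.toList.length => M.toList.get i) fun _ : Fin 1 => 0) =
      M + {0} := by
    rw [ms_sum, ms_fin, ms_toList, one_smul]
  rw [EmpM_iff e, EmpM_iff (ms_toList M)]
  constructor
  · refine Emp_drop Sum.inl ?_
    rintro (i | i) h
    · exact ⟨i, rfl, le_refl _⟩
    · exact absurd rfl h
  · exact Emp_emb Sum.inl Sum.inl_injective fun i => le_refl _

theorem SurM_zero {M : Multiset ℕ} {S : Set (ℤ × ℤ)} : SurM (M + {0}) S ↔ SurM M S := by
  have e : ms (Sum.elim (fun i : Fin M.toList.length => M.toList.get i) fun _ : Fin 1 => 0) =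
      M + {0} := by
    rw [ms_sum, ms_fin, ms_toList, one_smul]
  rw [SurM_iff e, SurM_iff (ms_toList M)]
  constructor
  · refine Sur_drop Sum.inl Sum.inl_injective (fun _ => rfl) ?_
    rintro (i | i) h
    · exact ⟨i, rfl⟩
    · exact absurd rfl h
  · refine Sur_emb Sum.inl Sum.inl_injective (fun _ => rfl) ?_
    rintro (i | i) h
    · exact ⟨i, rfl⟩
    · exact absurd rfl h

theorem Dec.main {s : Bool} {M : Multiset ℕ} {d : ℕ} (h : Dec s M d) :
    (s = false → EmpM M (TZ d)) ∧ (s = true → SurM M (TZ d)) := by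
  induction h with
  | blkE h => exact ⟨fun _ => h.emp, fun h => by simp at h⟩
  | blkI h => exact ⟨fun h => by simp at h, fun _ => h.sur⟩
  | @four s M b d hb h ih =>
    rw [← r4_eq hb]
    refine ⟨fun hs => ?_, fun hs => ?_⟩
    · have h1 := ih.1 hs
      rw [add_comm, ← one_smul ℕ ({b} : Multiset ℕ), ← Pool.Agent.TH387.SH.coe_TF] at h1
      have h2 := exM hb h1
      rw [one_smul, Pool.Agent.TH387.SH.coe_TF, add_comm] at h2
      exact h2
    · have h1 := ih.2 hs
      rw [add_comm, ← one_smul ℕ ({b} : Multiset ℕ)] at h1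
      have h2 := exMS hb h1
      rw [one_smul, add_comm] at h2
      exact h2
  | @dblE M a b d ha h1 h2 h ih1 ih2 =>
    rw [← q4_eq] at h ⊢
    refine ⟨fun _ => ?_, fun h => by simp at h⟩
    have g1 := ih1.2 rfl
    have g2 := ih2.1 rfl
    rw [add_comm, ← Pool.Agent.TH387.SH.coe_TF] at g1 g2
    have g3 := (dblM ha (TFp d) g1 g2).1
    rw [Pool.Agent.TH387.SH.card_TF, Pool.Agent.TH387.SH.coe_TF, add_comm (a • q4 b)] at g3
    exact g3 h
  | @dblI M a b d ha h1 h2 h ih1 ih2 =>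
    rw [← q4_eq] at h ⊢
    refine ⟨fun h => by simp at h, fun _ => ?_⟩
    have g1 := ih1.2 rfl
    have g2 := ih2.1 rfl
    rw [add_comm, ← Pool.Agent.TH387.SH.coe_TF] at g1 g2
    have g3 := (dblM ha (TFp d) g1 g2).2
    rw [Pool.Agent.TH387.SH.card_TF, Pool.Agent.TH387.SH.coe_TF, add_comm (a • q4 b)] at g3
    exact g3 h
  | @monoE M b b' d d' h hb hd ih =>
    refine ⟨fun _ => ?_, fun h => by simp at h⟩
    have h1 := (ih.1 rfl).mono_set (TZ_mono hd)
    rw [add_comm, ← one_smul ℕ ({b} : Multiset ℕ)] at h1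
    have h2 := EmpM.raise hb h1
    rwa [one_smul, add_comm] at h2
  | @monoI M b b' d d' h hb hd ih =>
    refine ⟨fun h => by simp at h, fun _ => ?_⟩
    have h1 := (ih.2 rfl).mono (TZ_mono hd)
    rw [add_comm, ← one_smul ℕ ({b'} : Multiset ℕ)] at h1
    have h2 := SurM.lower hb h1
    rwa [one_smul, add_comm] at h2
  | @zero s M d h ih =>
    exact ⟨fun hs => EmpM_zero.1 (ih.1 hs), fun hs => SurM_zero.1 (ih.2 hs)⟩
  | @zero' s M d h ih =>
    exact ⟨fun hs => EmpM_zero.2 (ih.1 hs), fun hs => SurM_zero.2 (ih.2 hs)⟩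

theorem sum_le_cond (M : Multiset ℕ) : M.sum ≤ (M.map fun x => (x + 1).choose 2).sum := by
  induction M using Multiset.induction with
  | empty => simp
  | cons a M ih =>
    rw [Multiset.sum_cons, Multiset.map_cons, Multiset.sum_cons]
    have : a ≤ (a + 1).choose 2 := by
      rw [Nat.choose_succ_succ' a 1, Nat.choose_one_right]
      omega
    omega

theorem AboveM.le {M : Multiset ℕ} {d : ℕ} (h : AboveM M d) : d ≤ M.sum := by
  obtain ⟨K, r, A, hK, hr, hA, h1, h2⟩ := h
  have hK' : (2 : ℝ) ≤ K := by exact_mod_cast hK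
  have h3 : ∑ i, min (((A i).sum : ℝ) ^ 2 / (A i).card) (((A i).sum : ℝ) * d / (2 * K)) ≤
      ∑ i, ((A i).sum : ℝ) * d / (2 * K) :=
    sum_le_sum fun i _ => min_le_right _ _
  rw [← sum_div, ← sum_mul] at h3
  have h4 : ∑ i, ((A i).sum : ℝ) ≤ (M.sum : ℝ) := by
    have g1 : ∑ i, (A i).sum ≤ M.sum := by
      obtain ⟨C, rfl⟩ := Multiset.le_iff_exists_add.1 hA
      rw [Multiset.sum_add, Multiset.sum_sum]
      exact Nat.le_add_right _ _
    exact_mod_cast g1
  have h5 : (0 : ℝ) ≤ d := Nat.cast_nonneg d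
  have h6 : (∑ i, ((A i).sum : ℝ)) * d / (2 * K) ≤ (M.sum : ℝ) * d := by
    rw [div_le_iff₀ (by positivity)]
    have h7 : (∑ i, ((A i).sum : ℝ)) * d ≤ (M.sum : ℝ) * d :=
      mul_le_mul_of_nonneg_right h4 h5
    have h8 : 0 ≤ (M.sum : ℝ) * d := mul_nonneg (Nat.cast_nonneg _) h5
    nlinarith
  have h9 : (d : ℝ) ^ 2 < (M.sum : ℝ) * d := lt_of_lt_of_le h2 (h3.trans h6)
  have h10 : (d : ℝ) < ((M.sum : ℕ) : ℝ) := by
    rw [sq] at h9
    exact lt_of_mul_lt_mul_right h9 h5
  exact_mod_cast h10.le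

/-- the degrees of emptiness are bounded -/
theorem Dec.le {s : Bool} {M : Multiset ℕ} {d : ℕ} (h : Dec s M d) :
    s = false → d ≤ (M.map fun x => (x + 1).choose 2).sum := by
  induction h with
  | blkE h => exact fun _ => h.le.trans (sum_le_cond _)
  | blkI h => exact fun h => by simp at h
  | @four s M b d hb h ih =>
    intro hs
    refine (ih hs).trans (le_of_eq ?_)
    rw [← r4_eq hb]
    show Pool.Agent.TH2.NU.condM (M + {b}) = Pool.Agent.TH2.NU.condM (M + r4 b)
    rw [condM_add, condM_add, condM_single, condM_r4 hb]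
  | @dblE M a b d ha h1 h2 h ih1 ih2 =>
    intro _
    have g1 : d + 1 ≤ (d + 2).choose 2 := by
      rw [Nat.choose_succ_succ' (d + 1) 1, Nat.choose_one_right]
      omega
    omega
  | @dblI M a b d ha h1 h2 h ih1 ih2 => exact fun h => by simp at h
  | @monoE M b b' d d' h hb hd ih =>
    intro _
    refine (hd.trans (ih rfl)).trans ?_
    rw [Multiset.map_add, Multiset.map_add, Multiset.sum_add, Multiset.sum_add,
      Multiset.map_singleton, Multiset.map_singleton, Multiset.sum_singleton,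
      Multiset.sum_singleton]
    exact Nat.add_le_add_left (Nat.choose_le_choose 2 (by omega)) _
  | @monoI M b b' d d' h hb hd ih => exact fun h => by simp at h
  | @zero s M d h ih =>
    intro hs
    refine (ih hs).trans (le_of_eq ?_)
    simp
  | @zero' s M d h ih =>
    intro hs
    refine (ih hs).trans (le_of_eq ?_)
    simp

/-- **The expected dimension, from the calculus.** -/
theorem expDim_dec {n : ℕ} (m : Fin n → ℕ) :
    ∃ F : MvPolynomial (Fin n × Fin 2) ℚ, F ≠ 0 ∧ ∀ {L : Type} [Field L] [CharZero L]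
      (P : Fin n → Fin 2 → L), MvPolynomial.aeval (fun ij : Fin n × Fin 2 => P ij.1 ij.2) F ≠ 0 →
      ∀ d, (∃ s, Dec s (univ.val.map m) d) → ExpDim L m P d := by
  have hms : ms m = univ.val.map m := by
    unfold ms
    rw [← Multiset.sum_map_singleton (univ.val.map m), Multiset.map_map]
    rfl
  obtain ⟨F, h1, h2⟩ := expDim_two (w := m) (A := fun d => Dec false (univ.val.map m) d)
    (B := fun d => Dec true (univ.val.map m) d)
    (N := ((univ.val.map m).map fun x => (x + 1).choose 2).sum)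
    (fun d hd => hd.le rfl)
    (fun d hd => (EmpM_ms _ _).1 (by rw [hms]; exact hd.main.1 rfl))
    (fun d hd => (SurM_ms _ _).1 (by rw [hms]; exact hd.main.2 rfl))
  refine ⟨F, h1, fun {L} _ _ P hP d hd => h2 P hP d ?_⟩
  obtain ⟨s, hs⟩ := hd
  cases s
  · exact Or.inl hs
  · exact Or.inr hs

end Pool.Agent.TH745.MN
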