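import Pool.Agent.TH745.MN.Core
import Pool.Agent.TH745.MN.Site2
import Pool.Agent.TH522.MN.Generic
import Pool.Agent.TH48.MN.Plane

/-! Emptiness for block systems of the plane. -/

set_option autoImplicit false

namespace Pool.Agent.TH745.MN

open Finset Pool.Agent.TH176.Nag Pool.Agent.TH603.Sur Filter Topology

theorem lin_ev {a b : ℝ} (C : ℝ) (h : a < b) : ∀ᶠ ε in 𝓝[>] (0 : ℝ), a + C * ε < b := by
  have h1 : Tendsto (fun ε : ℝ => a + C * ε) (𝓝[>] 0) (𝓝 (a + C * 0)) :=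
    ((continuous_const.add (continuous_const.mul continuous_id)).tendsto 0).mono_left
      nhdsWithin_le_nhds
  rw [mul_zero, add_zero] at h1
  exact h1.eventually (gt_mem_nhds h)

/-- the integer before a real number -/
theorem pred_int (t : ℝ) : t - 1 ≤ ((⌈t⌉ - 1 : ℤ) : ℝ) ∧ ((⌈t⌉ - 1 : ℤ) : ℝ) < t := by
  push_cast
  have h1 := Int.le_ceil t
  have h2 := Int.ceil_lt_add_one t
  exact ⟨by linarith, by linarith⟩

/-- a coprime pair for a flattening -/
theorem exists_pq {σ t : ℝ} (hσ : 0 < σ) (hσt : σ ≤ t) (ht : 1 < t) :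
    ∃ p q : ℤ, IsCoprime p q ∧ 1 ≤ p ∧ 1 ≤ q ∧ t - p * σ < q ∧ (q : ℝ) < t ∧ p * σ ≤ t := by
  rcases lt_or_ge 1 σ with h | h
  · obtain ⟨h1, h2⟩ := pred_int t
    refine ⟨1, ⌈t⌉ - 1, isCoprime_one_left, le_rfl, ?_, ?_, h2, ?_⟩
    · have h3 : (1 : ℝ) < ⌈t⌉ := lt_of_lt_of_le ht (Int.le_ceil t)
      have h4 : (1 : ℤ) < ⌈t⌉ := by exact_mod_cast h3
      omega
    · rw [Int.cast_one, one_mul]
      linarith
    · rw [Int.cast_one, one_mul]
      exact hσt
  · have h1 := Int.floor_le (t / σ)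
    have h2 := Int.lt_floor_add_one (t / σ)
    rw [le_div_iff₀ hσ] at h1
    rw [div_lt_iff₀ hσ] at h2
    refine ⟨⌊t / σ⌋, 1, isCoprime_one_right, ?_, le_rfl, ?_, by exact_mod_cast ht, h1⟩
    · apply Int.le_floor.2
      rw [Int.cast_one]
      exact (one_le_div hσ).2 hσt
    · rw [Int.cast_one]
      nlinarith

/-- a coprime pair for a flattening, strict -/
theorem exists_pq' {σ t : ℝ} (hσ : 0 < σ) (hσ1 : σ ≠ 1) (hσt : σ < t) (ht : 1 < t) :
    ∃ p q : ℤ, IsCoprime p q ∧ 1 ≤ p ∧ 1 ≤ q ∧ t - p * σ < q ∧ (q : ℝ) < t ∧ p * σ < t := by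
  rcases lt_or_gt_of_ne hσ1.symm with h | h
  · obtain ⟨h1, h2⟩ := pred_int t
    refine ⟨1, ⌈t⌉ - 1, isCoprime_one_left, le_rfl, ?_, ?_, h2, ?_⟩
    · have h3 : (1 : ℝ) < ⌈t⌉ := lt_of_lt_of_le ht (Int.le_ceil t)
      have h4 : (1 : ℤ) < ⌈t⌉ := by exact_mod_cast h3
      omega
    · rw [Int.cast_one, one_mul]
      linarith
    · rw [Int.cast_one, one_mul]
      exact hσt
  · obtain ⟨h1, h2⟩ := pred_int (t / σ)
    rw [lt_div_iff₀ hσ] at h2
    have h1' : t ≤ (((⌈t / σ⌉ - 1 : ℤ) : ℝ) + 1) * σ := by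
      rw [← div_le_iff₀ hσ]
      linarith
    refine ⟨⌈t / σ⌉ - 1, 1, isCoprime_one_right, ?_, le_rfl, ?_, by exact_mod_cast ht, h2⟩
    · have h3 : (1 : ℝ) < ⌈t / σ⌉ := lt_of_lt_of_le ((one_lt_div hσ).2 hσt) (Int.le_ceil _)
      have h4 : (1 : ℤ) < ⌈t / σ⌉ := by exact_mod_cast h3
      omega
    · rw [Int.cast_one]
      nlinarith

/-- emptiness on the triangle of one block -/
theorem Emp_ev {κ : Type} [Fintype κ] {w : κ → ℕ} {M : ℕ} (hM : 1 ≤ M) {B T : ℝ} (hB0 : 0 < B)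
    (hT : T * B = 4 * M * ((∑ j, w j : ℕ) : ℝ)) (hN : 0 < Fintype.card κ)
    (hu2 : 1 < T) :
    ∀ᶠ θ in 𝓝[<] (1 : ℝ), ∃ X Y : ℝ, 0 < X ∧ 0 < Y ∧
      θ ^ 2 * min (T ^ 2 / Fintype.card κ) T ≤ X + Y ∧
      Emp w (Reg (-(Y / (4 * M) * B)) (X / (4 * M) * B) (4 * M * (Y / (4 * M)))
        (4 * M * (X / (4 * M)))) := by
  have hM0 : (0 : ℝ) < M := by exact_mod_cast hM
  obtain ⟨N, hN'⟩ : ∃ N : ℝ, N = Fintype.card κ := ⟨_, rfl⟩
  obtain ⟨S, hS⟩ : ∃ S : ℝ, S = ((∑ j, w j : ℕ) : ℝ) := ⟨_, rfl⟩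
  have hN0 : 0 < N := by rw [hN']; exact_mod_cast hN
  rw [← hS] at hT
  rw [← hN']
  have hT0 : 0 < T := by linarith
  have e1 : ∀ᶠ θ in 𝓝[<] (1 : ℝ), 0 < θ :=
    (tendsto_id.mono_left nhdsWithin_le_nhds).eventually (lt_mem_nhds one_pos)
  have e2 : ∀ᶠ θ in 𝓝[<] (1 : ℝ), θ < 1 := eventually_mem_nhdsWithin
  rcases le_or_gt T N with hTN | hTN
  · have e3 : ∀ᶠ θ in 𝓝[<] (1 : ℝ), 1 < θ * T := by
      have hc : Continuous fun θ : ℝ => θ * T := by fun_prop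
      have := (hc.tendsto 1).mono_left (nhdsWithin_le_nhds (s := Set.Iio 1))
      rw [one_mul] at this
      exact this.eventually (lt_mem_nhds hu2)
    filter_upwards [e1, e2, e3] with θ h1 h2 h3
    obtain ⟨t, ht⟩ : ∃ t : ℝ, t = θ * T := ⟨_, rfl⟩
    obtain ⟨σ, hσ⟩ : ∃ σ : ℝ, σ = t ^ 2 / N := ⟨_, rfl⟩
    rw [← ht] at h3
    have ht0 : 0 < t := by linarith
    have htT : t < T := by rw [ht]; exact mul_lt_of_lt_one_left hT0 h2
    have hσ0 : 0 < σ := by rw [hσ]; positivity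
    have hσt : σ ≤ t := by
      rw [hσ, div_le_iff₀ hN0, sq]
      exact mul_le_mul_of_nonneg_left (htT.le.trans hTN) ht0.le
    obtain ⟨p, q, hpq, hp1, hq1, k1, k2, k3⟩ := exists_pq hσ0 hσt h3
    have hp0 : (0 : ℝ) < p := by exact_mod_cast (by omega : 0 < p)
    obtain ⟨Y, hY⟩ : ∃ Y : ℝ, Y = (t - q) / p := ⟨_, rfl⟩
    have hY1 : p * Y = t - q := by rw [hY]; field_simp
    have hY0 : 0 < Y := by rw [hY]; exact div_pos (by linarith) hp0
    have hX0 : 0 < σ - Y := by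
      have : p * Y < p * σ := by rw [hY1]; linarith
      have := lt_of_mul_lt_mul_left this hp0.le
      linarith
    have d1 : 4 * (M : ℝ) * (Y / (4 * M)) = Y := by field_simp
    have d2 : 4 * (M : ℝ) * ((σ - Y) / (4 * M)) = σ - Y := by field_simp
    refine ⟨σ - Y, Y, hX0, hY0, ?_, ?_⟩
    · have h5 : θ ^ 2 * min (T ^ 2 / N) T ≤ θ ^ 2 * (T ^ 2 / N) :=
        mul_le_mul_of_nonneg_left (min_le_left _ _) (by positivity)
      have h6 : θ ^ 2 * (T ^ 2 / N) = σ := by rw [hσ, ht]; ring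
      linarith
    · refine Emp_site2 hM (B := B) (t := t) (x := (σ - Y) / (4 * M))
        (y := Y / (4 * M)) (by positivity) (by positivity) p q hpq (by omega)
        (by rw [d1, hY1]; ring) ht0 (by rw [d2, mul_sub, hY1]; linarith) ?_ hB0 ?_
      · rw [mul_add, d1, d2, ← hN', hσ]
        field_simp
        ring
      · rw [← hS, div_lt_iff₀ (by positivity)]
        have := mul_lt_mul_of_pos_right htT hB0
        linarith
  · have e3 : ∀ᶠ θ in 𝓝[<] (1 : ℝ), N < θ * T := by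
      have hc : Continuous fun θ : ℝ => θ * T := by fun_prop
      have := (hc.tendsto 1).mono_left (nhdsWithin_le_nhds (s := Set.Iio 1))
      rw [one_mul] at this
      exact this.eventually (lt_mem_nhds hTN)
    filter_upwards [e1, e2, e3] with θ h1 h2 h3
    have hθT : 0 < θ * T := by positivity
    have d1 : 4 * (M : ℝ) * (θ * T / 2 / (4 * M)) = θ * T / 2 := by field_simp
    refine ⟨θ * T / 2, θ * T / 2, by linarith, by linarith, ?_, ?_⟩
    · have h5 : θ ^ 2 * min (T ^ 2 / N) T ≤ θ ^ 2 * T :=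
        mul_le_mul_of_nonneg_left (min_le_right _ _) (by positivity)
      have h6 : θ ^ 2 * T ≤ θ * T := by
        rw [sq, mul_assoc]
        exact mul_le_of_le_one_left hθT.le h2.le
      linarith
    · rw [d1]
      have key := Pool.Agent.TH819.NagA.Emp_final w (-(θ * T / 2 / (4 * M) * B))
        (θ * T / 2 / (4 * M) * B) (N / 2) (N / 2) (by positivity) (by positivity)
        (by rw [← hN']; ring) (by
          have h7 : θ * T / 2 / (4 * M) * B - -(θ * T / 2 / (4 * M) * B) = θ * S := by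
            have : T * B = 4 * M * S := hT
            field_simp
            nlinarith
          have hS0 : 0 < S := by
            have : 0 < 4 * (M : ℝ) * S := by rw [← hT]; positivity
            exact pos_of_mul_pos_right this (by positivity)
          rw [h7]
          have h8 : (S : ℝ) = ∑ i, (w i : ℝ) := by rw [hS]; push_cast; rfl
          rw [← h8]
          exact mul_lt_of_lt_one_left hS0 h2)
      refine key.mono ?_
      rintro m ⟨g1, g2, g3⟩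
      have g1' : (0 : ℝ) ≤ m.2 := by exact_mod_cast g1
      have g4 : N / 2 * (m.2 : ℝ) ≤ θ * T / 2 * m.2 :=
        mul_le_mul_of_nonneg_right (by linarith) g1'
      exact ⟨g1, by linarith, by linarith⟩

/-- emptiness for blocks -/
theorem Emp_blocks {K d r : ℕ} (hK : 1 ≤ K) (hr : r + 1 ≤ K ^ 2)
    {κ : Fin r → Type} [∀ i, Fintype (κ i)] {v : (Σ i, κ i) → ℕ}
    (h1 : ∀ i, d < 2 * K * ∑ j, v ⟨i, j⟩)
    (h3 : (d : ℝ) ^ 2 < ∑ i, min (((∑ j, v ⟨i, j⟩ : ℕ) : ℝ) ^ 2 / Fintype.card (κ i))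
        (((∑ j, v ⟨i, j⟩ : ℕ) : ℝ) * d / (2 * K))) :
    Emp v {m : ℤ × ℤ | 0 ≤ m.1 ∧ 0 ≤ m.2 ∧ m.1 + m.2 ≤ (d : ℤ)} := by
  classical
  have hK0 : (0 : ℝ) < K := by exact_mod_cast hK
  obtain ⟨S, hS⟩ : ∃ S : Fin r → ℝ, ∀ i, S i = ((∑ j, v ⟨i, j⟩ : ℕ) : ℝ) := ⟨_, fun _ => rfl⟩
  obtain ⟨N, hN⟩ : ∃ N : Fin r → ℝ, ∀ i, N i = Fintype.card (κ i) := ⟨_, fun _ => rfl⟩
  have h1' : ∀ i, (d : ℝ) < 2 * K * S i := by
    intro i
    have := h1 i
    rw [hS]
    exact_mod_cast this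
  simp only [← hS, ← hN] at h3
  have hS0 : ∀ i, 0 ≤ S i := fun i => by rw [hS]; exact Nat.cast_nonneg _
  have hN0 : ∀ i, 0 ≤ N i := fun i => by rw [hN]; exact Nat.cast_nonneg _
  have hd : 1 ≤ d := by
    by_contra h0
    have h0 : d = 0 := by omega
    subst h0
    have : ∑ i, min (S i ^ 2 / N i) (S i * ((0 : ℕ) : ℝ) / (2 * K)) ≤ 0 := by
      refine sum_nonpos fun i _ => (min_le_right _ _).trans ?_
      rw [Nat.cast_zero, mul_zero, zero_div]
    rw [Nat.cast_zero] at h3 this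
    nlinarith
  have hd0 : (0 : ℝ) < d := by exact_mod_cast hd
  obtain ⟨M, hM⟩ : ∃ M : ℕ, M = K ^ 2 := ⟨_, rfl⟩
  have hMR : (M : ℝ) = (K : ℝ) ^ 2 := by rw [hM]; push_cast; ring
  have hM0 : (0 : ℝ) < M := by rw [hMR]; positivity
  have hM1 : 1 ≤ M := by rw [hM]; exact Nat.one_le_pow _ _ (by omega)
  obtain ⟨T, hT⟩ : ∃ T : Fin r → ℝ, ∀ i, T i = 2 * K * S i / d := ⟨_, fun _ => rfl⟩
  have hTe : ∀ i, min (T i ^ 2 / N i) (T i) =
      4 * (K : ℝ) ^ 2 / d ^ 2 * min (S i ^ 2 / N i) (S i * d / (2 * K)) := by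
    intro i
    rw [mul_min_of_nonneg _ _ (by positivity)]
    congr 1
    · rw [hT]
      rcases (hN0 i).lt_or_eq with h | h
      · field_simp
        ring
      · rw [← h]
        simp
    · rw [hT]
      field_simp
      ring
  have hT1 : ∀ i, 1 < T i := by
    intro i
    rw [hT, one_lt_div hd0]
    exact h1' i
  have hT3 : 4 * (K : ℝ) ^ 2 < ∑ i, min (T i ^ 2 / N i) (T i) := by
    simp only [hTe]
    rw [← mul_sum]
    have h4 := mul_lt_mul_of_pos_left h3 (show 0 < 4 * (K : ℝ) ^ 2 / d ^ 2 by positivity)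
    rwa [div_mul_cancel₀ _ (by positivity)] at h4
  have hNpos : ∀ i, 0 < Fintype.card (κ i) := by
    intro i
    rw [Fintype.card_pos_iff]
    by_contra hne
    rw [not_nonempty_iff] at hne
    have := h1 i
    simp at this
  have c1 : ∀ᶠ θ in 𝓝[<] (1 : ℝ), ∀ i, ∃ X Y : ℝ, 0 < X ∧ 0 < Y ∧
      θ ^ 2 * min (T i ^ 2 / N i) (T i) ≤ X + Y ∧
      Emp (fun j => v ⟨i, j⟩) (Reg (-(Y / (4 * M) * (2 * ((K * d : ℕ) : ℝ))))
        (X / (4 * M) * (2 * ((K * d : ℕ) : ℝ))) (4 * M * (Y / (4 * M)))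
        (4 * M * (X / (4 * M)))) := by
    rw [eventually_all]
    intro i
    have := Emp_ev (κ := κ i) (w := fun j => v ⟨i, j⟩) hM1 (B := 2 * ((K * d : ℕ) : ℝ))
      (T := T i) (by push_cast; positivity) (by
        rw [← hS, hT, hMR]
        push_cast
        field_simp
        ring) (hNpos i) (hT1 i)
    rw [← hN] at this
    exact this
  have c2 : ∀ᶠ θ in 𝓝[<] (1 : ℝ), 4 * (K : ℝ) ^ 2 < θ ^ 2 * ∑ i, min (T i ^ 2 / N i) (T i) := by
    have hc : Continuous fun θ : ℝ => θ ^ 2 * ∑ i, min (T i ^ 2 / N i) (T i) := by fun_prop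
    have := (hc.tendsto 1).mono_left (nhdsWithin_le_nhds (s := Set.Iio 1))
    simp only [one_pow, one_mul] at this
    exact this.eventually (lt_mem_nhds hT3)
  obtain ⟨θ, h5, h6⟩ := (c1.and c2).exists
  choose X Y hX hY hXY hE using h5
  apply Pool.Agent.TH48.MN.Emp_plane_of_WM hK
  rw [← hM]
  refine Emp_core (r := r) (by rw [hM]; exact hr) (x := fun i => X i / (4 * M))
    (y := fun i => Y i / (4 * M)) (fun i => div_pos (hX i) (by positivity))
    (fun i => div_pos (hY i) (by positivity)) ?_ hE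
  have e : ∑ i, (X i / (4 * (M : ℝ)) + Y i / (4 * M)) = (∑ i, (X i + Y i)) / (4 * M) := by
    rw [sum_div]
    exact sum_congr rfl fun i _ => (add_div _ _ _).symm
  rw [e, one_lt_div (by positivity), hMR]
  refine lt_of_lt_of_le h6 ?_
  rw [mul_sum]
  exact sum_le_sum fun i _ => hXY i

end Pool.Agent.TH745.MN
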