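import Pool.Agent.TH745.MN.Key
import Pool.Agent.TH370.MN.Ceil
import Pool.Agent.TH503.MN.Rows
import Pool.Agent.TH592.MN.Sigma

/-! The key lemmas with real triangles: independence and emptiness at several nodes. -/

set_option autoImplicit false

namespace Pool.Agent.TH745.MN

open Finset Pool.Agent.TH176.Nag Pool.Agent.TH603.Sur

/-- independence in the weighted plane `P(1, 1, M)` from independence on `M - 1` triangles -/
theorem Sur_core {r M D : ℕ} (hM : r + 1 = M) (hr : 1 ≤ r) (hD : M ≤ D % (2 * M) + 2)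
    {κ : Fin r → Type} [∀ i, Fintype (κ i)] {w : (Σ i, κ i) → ℕ} {x y : Fin r → ℝ}
    (hx : ∀ i, 0 < x i) (hy : ∀ i, 0 < y i) (hxy : ∑ i, (x i + y i) ≤ 1)
    (hirr : ∀ p q : Fin r ⊕ Fin r, p ≠ q → Irrational (Sum.elim x y p / Sum.elim x y q))
    (h : ∀ i, Sur (fun j => w ⟨i, j⟩) {m : ℤ × ℤ | 0 ≤ m.2 ∧
      -(y i * ((2 * (D : ℝ) + 1 - 2 * r) - 4 * M * m.2)) < (m.1 : ℝ) ∧
      (m.1 : ℝ) < x i * ((2 * (D : ℝ) + 1 - 2 * r) - 4 * M * m.2)}) : Sur w (WM M D) := by
  classical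
  have hne : Nonempty (Fin r ⊕ Fin r) := ⟨Sum.inl ⟨0, by omega⟩⟩
  obtain ⟨a, ha⟩ : ∃ a : Fin r → ℝ, ∀ i, a i = 1 / x i := ⟨_, fun _ => rfl⟩
  obtain ⟨b, hb⟩ : ∃ b : Fin r → ℝ, ∀ i, b i = 1 / y i := ⟨_, fun _ => rfl⟩
  have ha0 : ∀ i, 0 < a i := fun i => by rw [ha]; exact one_div_pos.2 (hx i)
  have hb0 : ∀ i, 0 < b i := fun i => by rw [hb]; exact one_div_pos.2 (hy i)
  have hc0 : ∀ p : Fin r ⊕ Fin r, 0 < Sum.elim a b p := by
    rintro (i | i)
    · exact ha0 i
    · exact hb0 i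
  have hcx : ∀ p : Fin r ⊕ Fin r, Sum.elim a b p = 1 / Sum.elim x y p := by
    rintro (i | i)
    · exact ha i
    · exact hb i
  have hcirr : ∀ p q : Fin r ⊕ Fin r, p ≠ q → Irrational (Sum.elim a b p / Sum.elim a b q) := by
    intro p q hpq
    rw [hcx, hcx]
    have e : 1 / Sum.elim x y p / (1 / Sum.elim x y q) = Sum.elim x y q / Sum.elim x y p := by
      rw [one_div, one_div, div_inv_eq_mul, mul_comm, div_eq_mul_inv]
    rw [e]
    exact hirr q p (Ne.symm hpq)
  have hω : ∀ W : ℕ, ∃ ω : ℝ, 0 < ω ∧ ∑ p : Fin r ⊕ Fin r, ⌈ω / Sum.elim a b p⌉₊ =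
      max (2 * W + 1) (2 * r) := by
    intro W
    apply Pool.Agent.TH370.MN.exists_sum_ceil _ hc0 hcirr
    rw [Fintype.card_sum, Fintype.card_fin]
    have := le_max_right (2 * W + 1) (2 * r)
    omega
  choose ω hω0 hω1 using hω
  have hω2 : ∀ W, ∑ i, (⌈ω W / a i⌉₊ + ⌈ω W / b i⌉₊) = max (2 * W + 1) (2 * r) := by
    intro W
    rw [← hω1 W, Fintype.sum_sum_type, sum_add_distrib]
    rfl
  have hω3 : ∀ W : ℕ, 2 * (W : ℝ) + 1 - 2 * r < ω W := by
    intro W
    have h1 : ((∑ i, (⌈ω W / a i⌉₊ + ⌈ω W / b i⌉₊) : ℕ) : ℝ) <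
        ω W * ∑ i, (x i + y i) + 2 * r := by
      push_cast
      rw [mul_sum]
      have h2 : ∀ i ∈ (univ : Finset (Fin r)), ((⌈ω W / a i⌉₊ : ℝ) + ⌈ω W / b i⌉₊) <
          ω W * (x i + y i) + 2 := by
        intro i _
        have e1 : ω W / a i = ω W * x i := by
          rw [ha, one_div, div_inv_eq_mul]
        have e2 : ω W / b i = ω W * y i := by
          rw [hb, one_div, div_inv_eq_mul]
        rw [e1, e2]
        have g1 := Nat.ceil_lt_add_one (mul_nonneg (hω0 W).le (hx i).le)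
        have g2 := Nat.ceil_lt_add_one (mul_nonneg (hω0 W).le (hy i).le)
        linarith
      have h3 := sum_lt_sum_of_nonempty ⟨⟨0, by omega⟩, mem_univ _⟩ h2
      rw [sum_add_distrib (f := fun i => ω W * (x i + y i))] at h3
      simp only [sum_const, card_univ, Fintype.card_fin, nsmul_eq_mul] at h3
      linarith
    have h4 : ((2 * W + 1 : ℕ) : ℝ) ≤ ((∑ i, (⌈ω W / a i⌉₊ + ⌈ω W / b i⌉₊) : ℕ) : ℝ) := by
      rw [hω2 W]
      exact_mod_cast le_max_left _ _
    push_cast at h4 h1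
    have h5 : ω W * ∑ i, (x i + y i) ≤ ω W := mul_le_of_le_one_right (hω0 W).le hxy
    linarith
  obtain ⟨hf1, hf2, hcard⟩ := Pool.Agent.TH503.MN.card_rows (β := Fin r) (M := M) (D := D)
    (by rw [Fintype.card_fin]; exact hM) (by omega) hD ha0 hb0 hω0
    (by intro W; rw [Fintype.card_fin]; exact hω2 W)
  rw [← hf2.coe_toFinset]
  refine Pool.Agent.TH592.MN.Sur_sigma (S' := fun i => (hf1 i).toFinset) ?_ ?_ ?_
  · rw [← Set.ncard_eq_toFinset_card _ hf2]
    refine le_trans (le_of_eq ?_) hcard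
    exact sum_congr rfl fun i _ => (Set.ncard_eq_toFinset_card _ (hf1 i)).symm
  · intro κ' _ v hv
    rw [hf2.coe_toFinset]
    refine Emp_key (by omega) ha0 hb0 (ω := ω) (fun W => ⟨hω0 W, ?_⟩) ?_
    · rw [hω2 W]; exact le_max_left _ _
    · intro i
      have := hv i
      rwa [(hf1 i).coe_toFinset] at this
  · intro i
    rw [(hf1 i).coe_toFinset]
    refine (h i).mono ?_
    rintro ⟨m, l⟩ ⟨hl, h1, h2⟩
    simp only at hl h1 h2
    obtain ⟨l, rfl⟩ := Int.eq_ofNat_of_zero_le hl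
    simp only [Int.cast_natCast] at h1 h2
    have hpos : 0 < (2 * (D : ℝ) + 1 - 2 * r) - 4 * M * l := by
      by_contra hcon
      push Not at hcon
      have g1 : x i * ((2 * (D : ℝ) + 1 - 2 * r) - 4 * M * l) ≤ 0 :=
        mul_nonpos_of_nonneg_of_nonpos (hx i).le hcon
      have g2 : y i * ((2 * (D : ℝ) + 1 - 2 * r) - 4 * M * l) ≤ 0 :=
        mul_nonpos_of_nonneg_of_nonpos (hy i).le hcon
      linarith
    have hlD : 2 * M * l ≤ D := by
      have hr' : (1 : ℝ) ≤ r := by exact_mod_cast hr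
      have : (2 * M * l : ℝ) < D := by linarith
      exact_mod_cast this.le
    have hW : ((D - 2 * M * l : ℕ) : ℝ) = (D : ℝ) - 2 * M * l := by
      rw [Nat.cast_sub hlD]; push_cast; ring
    have h3 := hω3 (D - 2 * M * l)
    rw [hW] at h3
    have h4 : (2 * (D : ℝ) + 1 - 2 * r) - 4 * M * l < ω (D - 2 * M * l) := by linarith
    refine ⟨hl, by simp only; exact_mod_cast hlD, ?_, ?_⟩
    · simp only [Int.toNat_natCast]
      rw [ha, one_div_mul_eq_div, div_lt_iff₀ (hx i)]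
      have := mul_lt_mul_of_pos_left h4 (hx i)
      linarith
    · simp only [Int.toNat_natCast]
      rw [hb, one_div_mul_eq_div, ← neg_div, div_lt_iff₀ (hy i)]
      have := mul_lt_mul_of_pos_left h4 (hy i)
      linarith

/-- emptiness in the weighted plane `P(1, 1, M)` from emptiness on at most `M - 1` triangles -/
theorem Emp_core {r M D : ℕ} (hM : r + 1 ≤ M) {κ : Fin r → Type} [∀ i, Finite (κ i)]
    {v : (Σ i, κ i) → ℕ} {x y : Fin r → ℝ} (hx : ∀ i, 0 < x i) (hy : ∀ i, 0 < y i)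
    (hxy : 1 < ∑ i, (x i + y i))
    (h : ∀ i, Emp (fun j => v ⟨i, j⟩)
      (Reg (-(y i * (2 * D))) (x i * (2 * D)) (4 * M * y i) (4 * M * x i))) :
    Emp v (WM M D) := by
  classical
  obtain ⟨a, ha⟩ : ∃ a : Fin r → ℝ, ∀ i, a i = 1 / x i := ⟨_, fun _ => rfl⟩
  obtain ⟨b, hb⟩ : ∃ b : Fin r → ℝ, ∀ i, b i = 1 / y i := ⟨_, fun _ => rfl⟩
  have ha0 : ∀ i, 0 < a i := fun i => by rw [ha]; exact one_div_pos.2 (hx i)
  have hb0 : ∀ i, 0 < b i := fun i => by rw [hb]; exact one_div_pos.2 (hy i)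
  obtain ⟨S, hS⟩ : ∃ S, S = ∑ i, (x i + y i) := ⟨_, rfl⟩
  rw [← hS] at hxy
  have hle : ∀ i, x i + y i ≤ S := by
    intro i
    rw [hS]
    exact single_le_sum (f := fun i => x i + y i) (fun j _ => (add_pos (hx j) (hy j)).le) (mem_univ i)
  obtain ⟨ω, hω⟩ : ∃ ω : ℕ → ℝ, ∀ W, ω W = if W = 0 then 1 / S else 2 * W := ⟨_, fun _ => rfl⟩
  have hS0 : 0 < S := by linarith
  have hω0 : ∀ W, 0 < ω W := by
    intro W
    rw [hω]
    split_ifs with h0
    · exact one_div_pos.2 hS0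
    · have : (1 : ℝ) ≤ W := by exact_mod_cast Nat.one_le_iff_ne_zero.2 h0
      linarith
  have hr : 1 ≤ r := by
    rcases Nat.eq_zero_or_pos r with h0 | h0
    · subst h0
      rw [univ_eq_empty, sum_empty] at hS
      linarith
    · exact h0
  refine Emp_key hM ha0 hb0 (ω := ω) (fun W => ⟨hω0 W, ?_⟩) ?_
  · have e1 : ∀ i, ω W / a i = ω W * x i := fun i => by rw [ha, one_div, div_inv_eq_mul]
    have e2 : ∀ i, ω W / b i = ω W * y i := fun i => by rw [hb, one_div, div_inv_eq_mul]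
    rcases Nat.eq_zero_or_pos W with h0 | h0
    · subst h0
      have h1 : ∀ i ∈ (univ : Finset (Fin r)), 1 ≤ ⌈ω 0 / a i⌉₊ + ⌈ω 0 / b i⌉₊ := by
        intro i _
        have : 0 < ⌈ω 0 / a i⌉₊ := Nat.ceil_pos.2 (div_pos (hω0 0) (ha0 i))
        omega
      have h2 := single_le_sum (f := fun i => ⌈ω 0 / a i⌉₊ + ⌈ω 0 / b i⌉₊)
        (fun j _ => Nat.zero_le _) (mem_univ (⟨0, by omega⟩ : Fin r))
      have h3 := h1 ⟨0, by omega⟩ (mem_univ _)
      omega
    · have h1 : (2 * (W : ℝ)) < ((∑ i, (⌈ω W / a i⌉₊ + ⌈ω W / b i⌉₊) : ℕ) : ℝ) := by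
        push_cast
        have h2 : ∑ i, (ω W * (x i + y i)) ≤ ∑ i, ((⌈ω W / a i⌉₊ : ℝ) + ⌈ω W / b i⌉₊) := by
          refine sum_le_sum fun i _ => ?_
          have g1 := Nat.le_ceil (ω W / a i)
          have g2 := Nat.le_ceil (ω W / b i)
          rw [e1 i] at g1 ⊢
          rw [e2 i] at g2 ⊢
          linarith
        rw [← mul_sum, ← hS] at h2
        have h3 : ω W = 2 * W := by rw [hω, if_neg (by omega)]
        have h4 : (0 : ℝ) < 2 * W := by rw [← h3]; exact hω0 W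
        have h5 : 2 * (W : ℝ) < 2 * W * S := lt_mul_of_one_lt_right h4 hxy
        rw [h3] at h2
        calc 2 * (W : ℝ) < 2 * W * S := h5
          _ ≤ _ := by rw [h3]; exact h2
      have h2 : 2 * W < ∑ i, (⌈ω W / a i⌉₊ + ⌈ω W / b i⌉₊) := by exact_mod_cast h1
      omega
  · intro i
    refine (h i).mono ?_
    rintro ⟨m, l⟩ ⟨hl, hlD, h1, h2⟩
    simp only at hl hlD h1 h2
    obtain ⟨l, rfl⟩ := Int.eq_ofNat_of_zero_le hl
    simp only [Int.toNat_natCast] at h1 h2
    have hlD' : 2 * M * l ≤ D := by exact_mod_cast hlD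
    have hW : ((D - 2 * M * l : ℕ) : ℝ) = (D : ℝ) - 2 * M * l := by
      rw [Nat.cast_sub hlD']; push_cast; ring
    rw [ha, one_div_mul_eq_div, div_lt_iff₀ (hx i)] at h1
    rw [hb, one_div_mul_eq_div, ← neg_div, div_lt_iff₀ (hy i)] at h2
    refine ⟨hl, ?_, ?_⟩
    · simp only [Int.cast_natCast]
      by_cases h0 : D - 2 * M * l = 0
      · have e0 : (D : ℝ) - 2 * M * l = 0 := by rw [← hW, h0]; simp
        rw [h0, hω, if_pos rfl] at h2
        have h3 : 1 / S * y i ≤ 1 := by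
          rw [one_div_mul_eq_div, div_le_one hS0]
          have := hle i
          have := hx i
          linarith
        have h4 : (-1 : ℝ) < m := by linarith
        have h5 : (-1 : ℤ) < m := by exact_mod_cast h4
        have h6 : (0 : ℝ) ≤ m := by exact_mod_cast (by omega : (0 : ℤ) ≤ m)
        have e : -(y i * (2 * (D : ℝ))) + 4 * M * y i * l = -(y i * 2) * ((D : ℝ) - 2 * M * l) := by
          ring
        rw [e, e0, mul_zero]
        exact h6
      · rw [hω, if_neg h0, hW] at h2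
        have e : -(y i * (2 * (D : ℝ))) + 4 * M * y i * l = -(2 * ((D : ℝ) - 2 * M * l) * y i) := by
          ring
        rw [e]
        linarith
    · simp only [Int.cast_natCast]
      by_cases h0 : D - 2 * M * l = 0
      · have e0 : (D : ℝ) - 2 * M * l = 0 := by rw [← hW, h0]; simp
        rw [h0, hω, if_pos rfl] at h1
        have h3 : 1 / S * x i ≤ 1 := by
          rw [one_div_mul_eq_div, div_le_one hS0]
          have := hle i
          have := hy i
          linarith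
        have h4 : (m : ℝ) < 1 := by linarith
        have h5 : m < 1 := by exact_mod_cast h4
        have h6 : (m : ℝ) ≤ 0 := by exact_mod_cast (by omega : m ≤ 0)
        have e : x i * (2 * (D : ℝ)) - 4 * M * x i * l = x i * 2 * ((D : ℝ) - 2 * M * l) := by
          ring
        rw [e, e0, mul_zero]
        exact h6
      · rw [hω, if_neg h0, hW] at h1
        have e : x i * (2 * (D : ℝ)) - 4 * M * x i * l = 2 * ((D : ℝ) - 2 * M * l) * x i := by
          ring
        rw [e]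
        exact h1.le

end Pool.Agent.TH745.MN
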