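import Pool.Agent.TH745.MN.Main
import Pool.Agent.TH763.DB.Main
import Pool.Agent.TH387.SH.Tr

/-! The critical degrees: doubling of one block. -/

set_option autoImplicit false

namespace Pool.Agent.TH745.MN

open Finset Pool.Agent.TH176.Nag Pool.Agent.TH603.Sur H932R3

/-- dropping points of multiplicity zero -/
theorem Emp_drop {ι κ : Type} {w : ι → ℕ} {v : κ → ℕ} {S : Set (ℤ × ℤ)} (g : κ → ι)
    (h : ∀ i, w i ≠ 0 → ∃ k, g k = i ∧ w i ≤ v k) (hE : Emp w S) : Emp v S := by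
  obtain ⟨K, _, _, x, y, hx, hy, hf⟩ := hE
  refine ⟨K, _, inferInstance, fun k => x (g k), fun k => y (g k), fun k => hx _, fun k => hy _,
    fun f hS hL => hf f hS fun i => ?_⟩
  by_cases h0 : w i = 0
  · rw [h0]
    intro P hP
    have : P = 0 := by
      simpa [PF] using hP
    rw [this]
    unfold pr Finsupp.sum
    simp
  · obtain ⟨k, rfl, hk⟩ := h i h0
    exact (hL k).mono hk

theorem Sur_drop {ι κ : Type} [Fintype ι] [Fintype κ] {w : ι → ℕ} {v : κ → ℕ}
    {S : Set (ℤ × ℤ)} (g : κ → ι) (hg : Function.Injective g) (hv : ∀ k, v k = w (g k))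
    (h : ∀ i, w i ≠ 0 → ∃ k, g k = i) (hS : Sur w S) : Sur v S := by
  obtain ⟨T, h1, h2, h3⟩ := hS
  refine ⟨T, h1, h2.trans ?_, Emp_drop g (fun i hi => ?_) h3⟩
  · unfold Pool.Agent.TH603.Sur.cond
    symm
    refine Finset.sum_of_injOn g (hg.injOn) (fun i _ => by simp) (fun i _ hi => ?_)
      (fun k _ => by rw [hv])
    by_cases h0 : w i = 0
    · simp [h0]
    · obtain ⟨k, hk⟩ := h i h0
      exact absurd ⟨k, by simp, hk⟩ hi
  · obtain ⟨k, hk⟩ := h i hi
    exact ⟨k, hk, by rw [hv, hk]⟩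

/-- the exact dimension from the doubling theorem -/
theorem dbl {n : ℕ} {m : Fin n → ℕ} {d μ : ℕ} {Q B : Finset (Fin n)} (hBQ : B ⊆ Q)
    (hcard : Q.card = 4 * B.card) (hB : 0 < B.card) (hm : ∀ p ∈ Q, m p = μ)
    (hS : Sur (fun p => if p ∈ B then 2 * μ else if p ∈ Q then 0 else m p) (TZ d))
    (hE : Emp (fun p => if p ∈ B then 2 * μ + 1 else if p ∈ Q then 0 else m p) (TZ d)) :
    ((d + 2).choose 2 ≤ ∑ p, (m p + 1).choose 2 → Emp m (TZ d)) ∧
      (∑ p, (m p + 1).choose 2 ≤ (d + 2).choose 2 → Sur m (TZ d)) := by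
  classical
  -- the small system
  let g : Fin B.card ⊕ {p // p ∉ Q} → Fin n :=
    Sum.elim (fun i => (B.equivFin.symm i : Fin n)) (fun k => k.1)
  have hg : Function.Injective g := by
    rintro (i | i) (j | j) hij
    · have : B.equivFin.symm i = B.equivFin.symm j := Subtype.ext hij
      rw [B.equivFin.symm.injective this]
    · exfalso
      have h1 : (B.equivFin.symm i : Fin n) ∈ Q := hBQ (B.equivFin.symm i).2
      have h2 : (B.equivFin.symm i : Fin n) = j.1 := hij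
      rw [h2] at h1
      exact j.2 h1
    · exfalso
      have h1 : (B.equivFin.symm j : Fin n) ∈ Q := hBQ (B.equivFin.symm j).2
      have h2 : i.1 = (B.equivFin.symm j : Fin n) := hij
      rw [← h2] at h1
      exact i.2 h1
    · have : i = j := Subtype.ext hij
      rw [this]
  have hgs : ∀ p, (p ∈ B ∨ p ∉ Q) → ∃ k, g k = p := by
    rintro p (hp | hp)
    · refine ⟨Sum.inl (B.equivFin ⟨p, hp⟩), ?_⟩
      show ((B.equivFin.symm (B.equivFin ⟨p, hp⟩) : B) : Fin n) = p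
      rw [Equiv.symm_apply_apply]
    · exact ⟨Sum.inr ⟨p, hp⟩, rfl⟩
  have h1 : Sur (Sum.elim (fun _ : Fin B.card => 2 * μ) (fun k : {p // p ∉ Q} => m k.1))
      (TZ d) := by
    refine Sur_drop g hg ?_ (fun p hp => hgs p ?_) hS
    · rintro (i | i)
      · have : (B.equivFin.symm i : Fin n) ∈ B := (B.equivFin.symm i).2
        show 2 * μ = if (B.equivFin.symm i : Fin n) ∈ B then 2 * μ else _
        rw [if_pos this]
      · have h2 : i.1 ∉ Q := i.2
        have h3 : i.1 ∉ B := fun h => h2 (hBQ h)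
        show m i.1 = if i.1 ∈ B then 2 * μ else if i.1 ∈ Q then 0 else m i.1
        rw [if_neg h3, if_neg h2]
    · by_contra hcon
      push Not at hcon
      apply hp
      rw [if_neg hcon.1, if_pos hcon.2]
  have h2 : Emp (Sum.elim (fun _ : Fin B.card => 2 * μ + 1) (fun k : {p // p ∉ Q} => m k.1))
      (TZ d) := by
    refine Emp_drop g (fun p hp => ?_) hE
    by_cases hpB : p ∈ B
    · refine ⟨Sum.inl (B.equivFin ⟨p, hpB⟩), ?_, ?_⟩
      · show ((B.equivFin.symm (B.equivFin ⟨p, hpB⟩) : B) : Fin n) = p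
        rw [Equiv.symm_apply_apply]
      · simp only [if_pos hpB, Sum.elim_inl, le_refl]
    · by_cases hpQ : p ∈ Q
      · exact absurd (by rw [if_neg hpB, if_pos hpQ]) hp
      · refine ⟨Sum.inr ⟨p, hpQ⟩, rfl, ?_⟩
        simp only [if_neg hpB, if_neg hpQ, Sum.elim_inr, le_refl]
  have hD := Pool.Agent.TH763.DB.doubling (N := B.card) (m := μ)
    (e := fun k : {p // p ∉ Q} => m k.1) hB
    (S := Pool.Agent.TH387.SH.TF d) (fun u hu => by
      have h1 : u ∈ TZ d := by rw [← Pool.Agent.TH387.SH.coe_TF]; exact mem_coe.2 hu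
      exact ⟨h1.1, h1.2.1⟩)
    (by rw [Pool.Agent.TH387.SH.coe_TF]; exact h1) (by rw [Pool.Agent.TH387.SH.coe_TF]; exact h2)
  rw [Pool.Agent.TH387.SH.coe_TF, Pool.Agent.TH387.SH.card_TF] at hD
  -- the large system
  have hc : Fintype.card (Fin B.card × (Fin 2 × Fin 2)) = Fintype.card {p // p ∈ Q} := by
    rw [Fintype.card_coe, hcard]
    simp only [Fintype.card_prod, Fintype.card_fin]
    omega
  let q : Fin B.card × (Fin 2 × Fin 2) ≃ {p // p ∈ Q} := Fintype.equivOfCardEq hc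
  let g' : (Fin B.card × (Fin 2 × Fin 2)) ⊕ {p // p ∉ Q} → Fin n :=
    Sum.elim (fun i => (q i : Fin n)) (fun k => k.1)
  have hg' : Function.Injective g' := by
    rintro (i | i) (j | j) hij
    · have : q i = q j := Subtype.ext hij
      rw [q.injective this]
    · exfalso
      have h1 : (q i : Fin n) ∈ Q := (q i).2
      have h2 : (q i : Fin n) = j.1 := hij
      rw [h2] at h1
      exact j.2 h1
    · exfalso
      have h1 : (q j : Fin n) ∈ Q := (q j).2
      have h2 : i.1 = (q j : Fin n) := hij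
      rw [← h2] at h1
      exact i.2 h1
    · have : i = j := Subtype.ext hij
      rw [this]
  have hgs' : ∀ p, ∃ k, g' k = p := by
    intro p
    by_cases hp : p ∈ Q
    · refine ⟨Sum.inl (q.symm ⟨p, hp⟩), ?_⟩
      show ((q (q.symm ⟨p, hp⟩) : {p // p ∈ Q}) : Fin n) = p
      rw [Equiv.apply_symm_apply]
    · exact ⟨Sum.inr ⟨p, hp⟩, rfl⟩
  have hw : ∀ i, Sum.elim (fun _ : Fin B.card × (Fin 2 × Fin 2) => μ)
      (fun k : {p // p ∉ Q} => m k.1) i = m (g' i) := by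
    rintro (i | i)
    · exact (hm _ (q i).2).symm
    · rfl
  have hcond : Pool.Agent.TH603.Sur.cond (Sum.elim (fun _ : Fin B.card × (Fin 2 × Fin 2) => μ)
      (fun k : {p // p ∉ Q} => m k.1)) = ∑ p, (m p + 1).choose 2 := by
    unfold Pool.Agent.TH603.Sur.cond
    refine Finset.sum_of_injOn g' (hg'.injOn) (fun i _ => by simp) (fun p _ hp => ?_)
      (fun k _ => by rw [hw])
    obtain ⟨k, hk⟩ := hgs' p
    exact absurd ⟨k, by simp, hk⟩ hp
  rw [hcond] at hD
  exact ⟨fun h => Emp_emb g' hg' (fun i => (hw i).le) (hD.1 h),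
    fun h => Sur_emb g' hg' hw (fun p _ => hgs' p) (hD.2 h)⟩

/-- the critical degrees -/
def Crit {n : ℕ} (m : Fin n → ℕ) (d : ℕ) : Prop :=
  ∃ (Q B : Finset (Fin n)) (μ : ℕ), B ⊆ Q ∧ Q.card = 4 * B.card ∧ 0 < B.card ∧
    (∀ p ∈ Q, m p = μ) ∧
    Below (fun p => if p ∈ B then 2 * μ else if p ∈ Q then 0 else m p) d ∧
    Above (fun p => if p ∈ B then 2 * μ + 1 else if p ∈ Q then 0 else m p) d

theorem Crit.dbl {n : ℕ} {m : Fin n → ℕ} {d : ℕ} (h : Crit m d) :
    ((d + 2).choose 2 ≤ ∑ p, (m p + 1).choose 2 → Emp m (TZ d)) ∧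
      (∑ p, (m p + 1).choose 2 ≤ (d + 2).choose 2 → Sur m (TZ d)) := by
  obtain ⟨Q, B, μ, h1, h2, h3, h4, h5, h6⟩ := h
  exact Pool.Agent.TH745.MN.dbl h1 h2 h3 h4 h5.sur h6.emp

theorem TZ_mono {d d' : ℕ} (h : d ≤ d') : TZ d ⊆ TZ d' := by
  rintro m ⟨h1, h2, h3⟩
  exact ⟨h1, h2, h3.trans (by exact_mod_cast h)⟩

/-- **Block systems, with the critical degrees.** -/
theorem expDim_crit {n : ℕ} (m : Fin n → ℕ) :
    ∃ F : MvPolynomial (Fin n × Fin 2) ℚ, F ≠ 0 ∧ ∀ {L : Type} [Field L] [CharZero L]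
      (P : Fin n → Fin 2 → L), MvPolynomial.aeval (fun ij : Fin n × Fin 2 => P ij.1 ij.2) F ≠ 0 →
      ∀ d, ((∃ d', d ≤ d' ∧ (Above m d' ∨
          (Crit m d' ∧ (d' + 2).choose 2 ≤ ∑ p, (m p + 1).choose 2))) ∨
        (∃ d', d' ≤ d ∧ (Below m d' ∨
          (Crit m d' ∧ ∑ p, (m p + 1).choose 2 ≤ (d' + 2).choose 2)))) → ExpDim L m P d := by
  refine expDim_two (N := ∑ p, m p + ∑ p, (m p + 1).choose 2) ?_ ?_ ?_
  · rintro d ⟨d', hd, h | ⟨-, h⟩⟩
    · exact (hd.trans h.le).trans (Nat.le_add_right _ _)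
    · have h1 : d' + 1 ≤ (d' + 2).choose 2 := by
        rw [Nat.choose_succ_succ' (d' + 1) 1, Nat.choose_one_right]
        omega
      omega
  · rintro d ⟨d', hd, h | ⟨h, h'⟩⟩
    · exact Emp.mono h.emp (TZ_mono hd)
    · exact Emp.mono (h.dbl.1 h') (TZ_mono hd)
  · rintro d ⟨d', hd, h | ⟨h, h'⟩⟩
    · exact Sur.mono h.sur (TZ_mono hd)
    · exact Sur.mono (h.dbl.2 h') (TZ_mono hd)

end Pool.Agent.TH745.MN
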