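import Pool.Agent.TH962.MN.Site
import Pool.Agent.TH695.MN.Tube8
import Pool.Agent.TH713.MN.NodLead
import Pool.Agent.TH470.MN.GdPow
import Pool.Agent.TH113.MN.Key0
import Pool.Agent.TH509.MN.Common

/-! The key lemma for several nodes, and the triangles of a node. -/

set_option autoImplicit false

namespace Pool.Agent.TH745.MN

open Finset Pool.Agent.TH176.Nag Pool.Agent.TH603.Sur

theorem Emp_key {r M D : ℕ} (hM : r + 1 ≤ M) {κ : Fin r → Type} [∀ i, Finite (κ i)]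
    {v : (Σ i, κ i) → ℕ} {a b : Fin r → ℝ} (ha : ∀ i, 0 < a i) (hb : ∀ i, 0 < b i) {ω : ℕ → ℝ}
    (hω : Thr a b ω) (h : ∀ i, Emp (fun j => v ⟨i, j⟩) (SS M D (a i) (b i) ω)) :
    Emp v (WM M D) :=
  Pool.Agent.TH113.MN.Emp_key_of Pool.Agent.TH509.MN.common_points
    (fun h => Pool.Agent.TH695.MN.exists_tube h) Pool.Agent.TH470.MN.Gd_pf
    Pool.Agent.TH713.MN.nod_lead hM ha hb hω h

theorem Sur_site {κ : Type} [Fintype κ] {w : κ → ℕ} {c : ℕ} (hc : ∀ j, w j ≤ c + 1) {M : ℕ}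
    (hM : 1 ≤ M) {x y B t : ℝ} (hx : 0 < x) (hy : 0 < y) (q : ℤ) (hq : 4 * M * y + q = t)
    (ht : 0 < t) (hfront : 4 * M * x ≤ q) (hn : t ^ 2 ≤ Fintype.card κ * (4 * M * (x + y)))
    (hB : t ^ 2 / (4 * M * (x + y)) + ((∑ j, max (w j) c : ℕ) : ℝ) < t * (B + 4 * M) / (4 * M)) :
    Sur w {m : ℤ × ℤ | 0 ≤ m.2 ∧ -(y * (B - 4 * M * m.2)) < (m.1 : ℝ) ∧
      (m.1 : ℝ) < x * (B - 4 * M * m.2)} :=
  Pool.Agent.TH962.MN.Sur_site hc hM hx hy q hq ht hfront hn hB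

theorem Emp_site {κ : Type} [Fintype κ] {w : κ → ℕ} {M : ℕ} (hM : 1 ≤ M) {x y B t : ℝ}
    (hx : 0 < x) (hy : 0 < y) (q : ℤ) (hq : 4 * M * y + q = t) (ht : 0 < t)
    (hfront : 4 * M * x ≤ q) (hn : t ^ 2 = Fintype.card κ * (4 * M * (x + y))) (hB : 0 < B)
    (hw : t * B / (4 * M) < ((∑ j, w j : ℕ) : ℝ)) :
    Emp w (Reg (-(y * B)) (x * B) (4 * M * y) (4 * M * x)) :=
  Pool.Agent.TH962.MN.Emp_site hM hx hy q hq ht hfront hn hB hw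

end Pool.Agent.TH745.MN
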